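import Mathlib

/-!
Compact metric graphs with delta-type vertex conditions: eigenfunctions, the second eigenvalue
and the set `M` of points at which some second eigenfunction attains its global maximum or
minimum.
-/

namespace Pool.Agent.X151.QG

open Set

/-- A compact connected metric graph: finitely many vertices and edges (at least one edge), every edge `e` is a
copy of the interval `[0, len e]` whose end `0` is glued to the vertex `src e` and whose end
`len e` is glued to the vertex `tgt e`. Loops and multiple edges are allowed. -/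
structure MetricGraph where
  V : Type
  E : Type
  [finV : Fintype V]
  [finE : Fintype E]
  src : E → V
  tgt : E → V
  len : E → ℝ
  len_pos : ∀ e, 0 < len e
  nonempty : Nonempty E
  conn : ∀ v w : V, Relation.ReflTransGen
    (fun a b => ∃ e, (src e = a ∧ tgt e = b) ∨ (src e = b ∧ tgt e = a)) v w

attribute [instance] MetricGraph.finV MetricGraph.finE

variable (Γ : MetricGraph)

/-- The points of the metric graph: the vertices and the interior points of the edges. -/
abbrev MetricGraph.Pt : Type := Γ.V ⊕ (Σ e : Γ.E, Ioo (0 : ℝ) (Γ.len e))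

/-- A vertex as a point of the graph. -/
def MetricGraph.vtx (v : Γ.V) : Γ.Pt := Sum.inl v

open Classical in
/-- The point of the edge `e` with coordinate `x` (used for `0 ≤ x ≤ len e`); the ends of the
edge are the vertices `src e` and `tgt e`. -/
noncomputable def MetricGraph.pt (e : Γ.E) (x : ℝ) : Γ.Pt :=
  if h0 : x ≤ 0 then Sum.inl (Γ.src e)
  else if h1 : Γ.len e ≤ x then Sum.inl (Γ.tgt e)
  else Sum.inr ⟨e, x, lt_of_not_ge h0, lt_of_not_ge h1⟩

open Classical in
/-- `f` is a real eigenfunction for the eigenvalue `μ` of the Laplacian with the vertex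
conditions of strengths `α`: `f` is not identically zero, on every edge `f` is twice
differentiable (up to the ends, with `df` the first derivative) with `f'' = -μ f`, `f` is
continuous on the graph (the one-sided limits at the ends of the edges are the values at the
vertices, because `f` is a function on the points of the graph), and at every vertex `v` the sum
of the derivatives of `f` taken into the edges is `α v * f v`. -/
def MetricGraph.IsEigen (α : Γ.V → ℝ) (μ : ℝ) (f : Γ.Pt → ℝ) : Prop :=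
  (∃ p, f p ≠ 0) ∧ ∃ df : Γ.E → ℝ → ℝ,
    (∀ e, ∀ x ∈ Icc 0 (Γ.len e),
      HasDerivWithinAt (fun y => f (Γ.pt e y)) (df e x) (Icc 0 (Γ.len e)) x) ∧
    (∀ e, ∀ x ∈ Icc 0 (Γ.len e),
      HasDerivWithinAt (df e) (-μ * f (Γ.pt e x)) (Icc 0 (Γ.len e)) x) ∧
    ∀ v, (∑ e, if Γ.src e = v then df e 0 else 0) -
      (∑ e, if Γ.tgt e = v then df e (Γ.len e) else 0) = α v * f (Γ.vtx v)

/-- `μ` is the second eigenvalue: the least eigenvalue above the lowest eigenvalue (the lowest
eigenvalue of a connected graph is simple). -/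
def MetricGraph.IsSecond (α : Γ.V → ℝ) (μ : ℝ) : Prop :=
  ∃ ν, IsLeast {t | ∃ f, Γ.IsEigen α t f} ν ∧ IsLeast {t | ν < t ∧ ∃ f, Γ.IsEigen α t f} μ

/-- The set `M` of the points at which some second eigenfunction attains its global maximum or
its global minimum. -/
def MetricGraph.M (α : Γ.V → ℝ) : Set Γ.Pt :=
  {p | ∃ μ f, Γ.IsSecond α μ ∧ Γ.IsEigen α μ f ∧ ((∀ q, f q ≤ f p) ∨ (∀ q, f p ≤ f q))}

variable {Γ}

theorem pt_zero (e : Γ.E) : Γ.pt e 0 = Γ.vtx (Γ.src e) := by
  unfold MetricGraph.pt MetricGraph.vtx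
  rw [dif_pos le_rfl]

theorem pt_len (e : Γ.E) : Γ.pt e (Γ.len e) = Γ.vtx (Γ.tgt e) := by
  have := Γ.len_pos e
  unfold MetricGraph.pt MetricGraph.vtx
  rw [dif_neg (not_le.2 this), dif_pos le_rfl]

theorem pt_mem (e : Γ.E) {x : ℝ} (h0 : 0 < x) (h1 : x < Γ.len e) :
    Γ.pt e x = Sum.inr ⟨e, x, h0, h1⟩ := by
  unfold MetricGraph.pt
  rw [dif_neg (not_le.2 h0), dif_neg (not_le.2 h1)]

/-- Every point is a vertex or a point `pt e x` with `0 < x < len e`. -/
theorem pt_cases (p : Γ.Pt) : (∃ v, p = Γ.vtx v) ∨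
    ∃ (e : Γ.E) (x : ℝ), 0 < x ∧ x < Γ.len e ∧ p = Γ.pt e x := by
  rcases p with v | ⟨e, x, h0, h1⟩
  · exact Or.inl ⟨v, rfl⟩
  · exact Or.inr ⟨e, x, h0, h1, (pt_mem e h0 h1).symm⟩

/-- Solutions of `f'' = -k² f` on an interval. -/
theorem ode {L k : ℝ} (hk : k ≠ 0) {f df : ℝ → ℝ}
    (h1 : ∀ x ∈ Icc 0 L, HasDerivWithinAt f (df x) (Icc 0 L) x)
    (h2 : ∀ x ∈ Icc 0 L, HasDerivWithinAt df (-k ^ 2 * f x) (Icc 0 L) x)
    {x : ℝ} (hx : x ∈ Icc 0 L) :
    f x = f 0 * Real.cos (k * x) + df 0 / k * Real.sin (k * x) ∧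
      df x = -k * f 0 * Real.sin (k * x) + df 0 * Real.cos (k * x) := by
  have hc : ∀ x, HasDerivAt (fun x => Real.cos (k * x)) (-k * Real.sin (k * x)) x := by
    intro x
    have := ((hasDerivAt_id x).const_mul k).cos
    simp only [id] at this
    convert this using 1
    ring
  have hs : ∀ x, HasDerivAt (fun x => Real.sin (k * x)) (k * Real.cos (k * x)) x := by
    intro x
    have := ((hasDerivAt_id x).const_mul k).sin
    simp only [id] at this
    convert this using 1
    ring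
  have g1 : ∀ x ∈ Icc 0 L, f x * Real.cos (k * x) - df x / k * Real.sin (k * x) =
      f 0 * Real.cos (k * 0) - df 0 / k * Real.sin (k * 0) := by
    apply constant_of_has_deriv_right_zero
    · intro x hx
      exact (((h1 x hx).continuousWithinAt.mul (hc x).continuousAt.continuousWithinAt).sub
        (((h2 x hx).continuousWithinAt.div_const k).mul (hs x).continuousAt.continuousWithinAt))
    · intro x hx
      have hx' : x ∈ Icc 0 L := ⟨hx.1, hx.2.le⟩
      have e1 := ((h1 x hx').mul (hc x).hasDerivWithinAt).sub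
        (((h2 x hx').div_const k).mul (hs x).hasDerivWithinAt)
      have e2 := e1.mono_of_mem_nhdsWithin (s := Ici x) (by
        apply mem_nhdsWithin.2
        refine ⟨Iio L, isOpen_Iio, hx.2, ?_⟩
        rintro y ⟨hy1, hy2⟩
        exact ⟨le_trans hx.1 hy2, le_of_lt hy1⟩)
      exact e2.congr_deriv (by field_simp; ring)
  have g2 : ∀ x ∈ Icc 0 L, f x * Real.sin (k * x) + df x / k * Real.cos (k * x) =
      f 0 * Real.sin (k * 0) + df 0 / k * Real.cos (k * 0) := by
    apply constant_of_has_deriv_right_zero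
    · intro x hx
      exact (((h1 x hx).continuousWithinAt.mul (hs x).continuousAt.continuousWithinAt).add
        (((h2 x hx).continuousWithinAt.div_const k).mul (hc x).continuousAt.continuousWithinAt))
    · intro x hx
      have hx' : x ∈ Icc 0 L := ⟨hx.1, hx.2.le⟩
      have e1 := ((h1 x hx').mul (hs x).hasDerivWithinAt).add
        (((h2 x hx').div_const k).mul (hc x).hasDerivWithinAt)
      have e2 := e1.mono_of_mem_nhdsWithin (s := Ici x) (by
        apply mem_nhdsWithin.2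
        refine ⟨Iio L, isOpen_Iio, hx.2, ?_⟩
        rintro y ⟨hy1, hy2⟩
        exact ⟨le_trans hx.1 hy2, le_of_lt hy1⟩)
      exact e2.congr_deriv (by field_simp; ring)
  have e1 := g1 x hx
  have e2 := g2 x hx
  simp only [mul_zero, Real.cos_zero, Real.sin_zero, mul_one, sub_zero, zero_add] at e1 e2
  have hcs := Real.sin_sq_add_cos_sq (k * x)
  set C := Real.cos (k * x)
  set S := Real.sin (k * x)
  constructor
  · calc f x = f x * (S ^ 2 + C ^ 2) := by rw [hcs, mul_one]
      _ = (f x * C - df x / k * S) * C + (f x * S + df x / k * C) * S := by ring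
      _ = _ := by rw [e1, e2]
  · have : df x / k = - f 0 * S + df 0 / k * C := by
      calc df x / k = df x / k * (S ^ 2 + C ^ 2) := by rw [hcs, mul_one]
        _ = -(f x * C - df x / k * S) * S + (f x * S + df x / k * C) * C := by ring
        _ = _ := by rw [e1, e2]
    field_simp at this ⊢
    linarith

/-- The continuous function which solves `f'' = -k² f` on the edges and has the values `u` at the
vertices. -/
noncomputable def lift (Γ : MetricGraph) (k : ℝ) (u : Γ.V → ℝ) : Γ.Pt → ℝ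
  | Sum.inl v => u v
  | Sum.inr ⟨e, x⟩ => (u (Γ.src e) * Real.sin (k * (Γ.len e - x)) +
      u (Γ.tgt e) * Real.sin (k * x)) / Real.sin (k * Γ.len e)

theorem lift_vtx (k : ℝ) (u : Γ.V → ℝ) (v : Γ.V) : lift Γ k u (Γ.vtx v) = u v := rfl

theorem lift_pt (k : ℝ) (u : Γ.V → ℝ) (e : Γ.E) (hs : Real.sin (k * Γ.len e) ≠ 0) {x : ℝ}
    (hx : x ∈ Icc 0 (Γ.len e)) : lift Γ k u (Γ.pt e x) =
      (u (Γ.src e) * Real.sin (k * (Γ.len e - x)) +
        u (Γ.tgt e) * Real.sin (k * x)) / Real.sin (k * Γ.len e) := by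
  rcases eq_or_lt_of_le hx.1 with h | h
  · rw [← h, pt_zero, lift_vtx]
    simp only [sub_zero, mul_zero, Real.sin_zero, add_zero]
    field_simp
  · rcases eq_or_lt_of_le hx.2 with h' | h'
    · rw [h', pt_len, lift_vtx]
      simp only [sub_self, mul_zero, Real.sin_zero, zero_add]
      field_simp
    · rw [pt_mem e h h']
      rfl

open Classical in
/-- The discrete equation at the vertex `v`. -/
def Disc (Γ : MetricGraph) (α : Γ.V → ℝ) (k : ℝ) (u : Γ.V → ℝ) (v : Γ.V) : Prop :=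
  (∑ e, if Γ.src e = v then (u (Γ.tgt e) - Real.cos (k * Γ.len e) * u v) /
      Real.sin (k * Γ.len e) else 0) +
    (∑ e, if Γ.tgt e = v then (u (Γ.src e) - Real.cos (k * Γ.len e) * u v) /
      Real.sin (k * Γ.len e) else 0) = α v * u v / k

theorem disc_iff [DecidableEq Γ.V] (α : Γ.V → ℝ) (k : ℝ) (u : Γ.V → ℝ) (v : Γ.V) :
    Disc Γ α k u v ↔
  (∑ e, if Γ.src e = v then (u (Γ.tgt e) - Real.cos (k * Γ.len e) * u v) /
      Real.sin (k * Γ.len e) else 0) +
    (∑ e, if Γ.tgt e = v then (u (Γ.src e) - Real.cos (k * Γ.len e) * u v) /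
      Real.sin (k * Γ.len e) else 0) = α v * u v / k := by
  unfold Disc
  constructor <;> intro h <;> convert h

theorem eigen_of_disc (α : Γ.V → ℝ) {k : ℝ} (hk : k ≠ 0)
    (hs : ∀ e, Real.sin (k * Γ.len e) ≠ 0) (u : Γ.V → ℝ) (hu : ∃ v, u v ≠ 0)
    (hd : ∀ v, Disc Γ α k u v) : Γ.IsEigen α (k ^ 2) (lift Γ k u) := by
  classical
  obtain ⟨v, hv⟩ := hu
  refine ⟨⟨Γ.vtx v, hv⟩, fun e x => k * (-u (Γ.src e) * Real.cos (k * (Γ.len e - x)) +
    u (Γ.tgt e) * Real.cos (k * x)) / Real.sin (k * Γ.len e), ?_, ?_, ?_⟩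
  · intro e x hx
    have h1 : HasDerivAt (fun x => (u (Γ.src e) * Real.sin (k * (Γ.len e - x)) +
        u (Γ.tgt e) * Real.sin (k * x)) / Real.sin (k * Γ.len e))
        (k * (-u (Γ.src e) * Real.cos (k * (Γ.len e - x)) +
          u (Γ.tgt e) * Real.cos (k * x)) / Real.sin (k * Γ.len e)) x := by
      have a1 := (((hasDerivAt_id x).const_sub (Γ.len e)).const_mul k).sin
      have a2 := ((hasDerivAt_id x).const_mul k).sin
      simp only [id] at a1 a2
      have a3 := ((a1.const_mul (u (Γ.src e))).add (a2.const_mul (u (Γ.tgt e)))).div_const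
        (Real.sin (k * Γ.len e))
      exact a3.congr_deriv (by ring)
    exact h1.hasDerivWithinAt.congr (fun y hy => lift_pt k u e (hs e) hy)
      (lift_pt k u e (hs e) hx)
  · intro e x hx
    rw [lift_pt k u e (hs e) hx]
    have a1 := (((hasDerivAt_id x).const_sub (Γ.len e)).const_mul k).cos
    have a2 := ((hasDerivAt_id x).const_mul k).cos
    simp only [id] at a1 a2
    have a3 := (((a1.const_mul (-u (Γ.src e))).add (a2.const_mul (u (Γ.tgt e)))).const_mul
      k).div_const (Real.sin (k * Γ.len e))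
    refine HasDerivAt.hasDerivWithinAt ?_
    exact a3.congr_deriv (by ring)
  · intro v
    have h := hd v
    unfold Disc at h
    rw [lift_vtx]
    have h1 : (∑ e, if Γ.src e = v then k * (-u (Γ.src e) * Real.cos (k * (Γ.len e - 0)) +
        u (Γ.tgt e) * Real.cos (k * 0)) / Real.sin (k * Γ.len e) else 0) =
        k * ∑ e, if Γ.src e = v then (u (Γ.tgt e) - Real.cos (k * Γ.len e) * u v) /
          Real.sin (k * Γ.len e) else 0 := by
      rw [Finset.mul_sum]
      refine Finset.sum_congr rfl fun e _ => ?_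
      split_ifs with hsv
      · rw [hsv]; simp only [sub_zero, mul_zero, Real.cos_zero]; ring
      · simp
    have h2 : (∑ e, if Γ.tgt e = v then k * (-u (Γ.src e) *
        Real.cos (k * (Γ.len e - Γ.len e)) +
        u (Γ.tgt e) * Real.cos (k * Γ.len e)) / Real.sin (k * Γ.len e) else 0) =
        -(k * ∑ e, if Γ.tgt e = v then (u (Γ.src e) - Real.cos (k * Γ.len e) * u v) /
          Real.sin (k * Γ.len e) else 0) := by
      rw [Finset.mul_sum, ← Finset.sum_neg_distrib]
      refine Finset.sum_congr rfl fun e _ => ?_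
      split_ifs with hsv
      · rw [hsv]; simp only [sub_self, mul_zero, Real.cos_zero]; ring
      · simp
    rw [h1, h2]
    have : α v * u v = k * (α v * u v / k) := by field_simp
    rw [this, ← h]
    ring

theorem disc_of_eigen {α : Γ.V → ℝ} {k : ℝ} (hk : k ≠ 0)
    (hs : ∀ e, Real.sin (k * Γ.len e) ≠ 0) {f : Γ.Pt → ℝ} (hf : Γ.IsEigen α (k ^ 2) f) :
    f = lift Γ k (fun v => f (Γ.vtx v)) ∧ (∃ v, f (Γ.vtx v) ≠ 0) ∧
      ∀ v, Disc Γ α k (fun v => f (Γ.vtx v)) v := by
  classical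
  obtain ⟨⟨p, hp⟩, df, h1, h2, h3⟩ := hf
  have key : ∀ e, ∀ x ∈ Icc 0 (Γ.len e),
      f (Γ.pt e x) = f (Γ.vtx (Γ.src e)) * Real.cos (k * x) + df e 0 / k * Real.sin (k * x) ∧
      df e x = -k * f (Γ.vtx (Γ.src e)) * Real.sin (k * x) + df e 0 * Real.cos (k * x) := by
    intro e x hx
    have h2' : ∀ x ∈ Icc 0 (Γ.len e), HasDerivWithinAt (df e)
        (-k ^ 2 * (fun y => f (Γ.pt e y)) x) (Icc 0 (Γ.len e)) x := by
      intro x hx
      have := h2 e x hx
      simpa using this
    have := ode hk (h1 e) h2' hx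
    simpa only [pt_zero] using this
  have hL : ∀ e, Γ.len e ∈ Icc 0 (Γ.len e) := fun e => ⟨(Γ.len_pos e).le, le_rfl⟩
  have hd0 : ∀ e, df e 0 = k * ((f (Γ.vtx (Γ.tgt e)) - Real.cos (k * Γ.len e) *
      f (Γ.vtx (Γ.src e))) / Real.sin (k * Γ.len e)) := by
    intro e
    have := (key e _ (hL e)).1
    rw [pt_len] at this
    rw [this]
    have := hs e
    field_simp
    ring
  have hd1 : ∀ e, df e (Γ.len e) = -(k * ((f (Γ.vtx (Γ.src e)) - Real.cos (k * Γ.len e) *
      f (Γ.vtx (Γ.tgt e))) / Real.sin (k * Γ.len e))) := by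
    intro e
    rw [(key e _ (hL e)).2, hd0 e]
    have := hs e
    have hcs := Real.sin_sq_add_cos_sq (k * Γ.len e)
    field_simp
    linear_combination (-f (Γ.vtx (Γ.src e))) * hcs
  have hlift : f = lift Γ k (fun v => f (Γ.vtx v)) := by
    funext q
    rcases pt_cases q with ⟨v, rfl⟩ | ⟨e, x, hx0, hx1, rfl⟩
    · rfl
    · rw [lift_pt k _ e (hs e) ⟨hx0.le, hx1.le⟩, (key e x ⟨hx0.le, hx1.le⟩).1, hd0 e]
      have := hs e
      have hsub : Real.sin (k * (Γ.len e - x)) = Real.sin (k * Γ.len e) * Real.cos (k * x) -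
          Real.cos (k * Γ.len e) * Real.sin (k * x) := by
        rw [mul_sub, Real.sin_sub]
      rw [hsub]
      field_simp
      ring
  refine ⟨hlift, ?_, ?_⟩
  · by_contra hne
    push Not at hne
    apply hp
    rw [hlift]
    rcases pt_cases p with ⟨v, rfl⟩ | ⟨e, x, hx0, hx1, rfl⟩
    · rw [lift_vtx]; exact hne v
    · rw [lift_pt k _ e (hs e) ⟨hx0.le, hx1.le⟩]
      simp only [hne]
      ring
  · intro v
    have h := h3 v
    unfold Disc
    have e1 : (∑ e, if Γ.src e = v then df e 0 else 0) =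
        k * ∑ e, if Γ.src e = v then (f (Γ.vtx (Γ.tgt e)) - Real.cos (k * Γ.len e) *
          f (Γ.vtx v)) / Real.sin (k * Γ.len e) else 0 := by
      rw [Finset.mul_sum]
      refine Finset.sum_congr rfl fun e _ => ?_
      split_ifs with hsv
      · rw [hd0 e, hsv]
      · simp
    have e2 : (∑ e, if Γ.tgt e = v then df e (Γ.len e) else 0) =
        -(k * ∑ e, if Γ.tgt e = v then (f (Γ.vtx (Γ.src e)) - Real.cos (k * Γ.len e) *
          f (Γ.vtx v)) / Real.sin (k * Γ.len e) else 0) := by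
      rw [Finset.mul_sum, ← Finset.sum_neg_distrib]
      refine Finset.sum_congr rfl fun e _ => ?_
      split_ifs with hsv
      · rw [hd1 e, hsv]
      · simp
    rw [e1, e2] at h
    beta_reduce
    rw [eq_div_iff hk, ← h]
    ring

/-- For nonnegative strengths there is no eigenvalue below `0`, and `0` is an eigenvalue only if
all strengths vanish. -/
theorem eigen_nonneg {α : Γ.V → ℝ} (hα : ∀ v, 0 ≤ α v) {μ : ℝ} {f : Γ.Pt → ℝ}
    (hf : Γ.IsEigen α μ f) (hμ : μ ≤ 0) : μ = 0 ∧ ∀ v, α v = 0 := by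
  classical
  obtain ⟨⟨p, hp⟩, df, h1, h2, h3⟩ := hf
  -- the product `f f'` is monotone on every edge
  have hder : ∀ e, ∀ x ∈ Icc 0 (Γ.len e), HasDerivWithinAt (fun y => f (Γ.pt e y) * df e y)
      (df e x ^ 2 - μ * f (Γ.pt e x) ^ 2) (Icc 0 (Γ.len e)) x := by
    intro e x hx
    exact ((h1 e x hx).mul (h2 e x hx)).congr_deriv (by ring)
  have hmono : ∀ e, MonotoneOn (fun y => f (Γ.pt e y) * df e y) (Icc 0 (Γ.len e)) := by
    intro e
    apply monotoneOn_of_deriv_nonneg (convex_Icc _ _)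
    · intro x hx
      exact (hder e x hx).continuousWithinAt
    · intro x hx
      rw [interior_Icc] at hx
      exact ((hder e x ⟨hx.1.le, hx.2.le⟩).hasDerivAt
        (Icc_mem_nhds hx.1 hx.2)).differentiableAt.differentiableWithinAt
    · intro x hx
      rw [interior_Icc] at hx
      rw [((hder e x ⟨hx.1.le, hx.2.le⟩).hasDerivAt (Icc_mem_nhds hx.1 hx.2)).deriv]
      nlinarith [sq_nonneg (df e x), sq_nonneg (f (Γ.pt e x))]
  have hend : ∀ e, 0 ≤ f (Γ.vtx (Γ.tgt e)) * df e (Γ.len e) - f (Γ.vtx (Γ.src e)) * df e 0 := by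
    intro e
    have hL := (Γ.len_pos e).le
    have := hmono e ⟨le_rfl, hL⟩ ⟨hL, le_rfl⟩ hL
    simp only [pt_zero, pt_len] at this
    linarith
  have hsum : ∑ e, (f (Γ.vtx (Γ.tgt e)) * df e (Γ.len e) - f (Γ.vtx (Γ.src e)) * df e 0) =
      -∑ v, α v * f (Γ.vtx v) ^ 2 := by
    have a1 : ∑ e, f (Γ.vtx (Γ.src e)) * df e 0 =
        ∑ v, f (Γ.vtx v) * ∑ e, if Γ.src e = v then df e 0 else 0 := by
      simp_rw [Finset.mul_sum]
      rw [Finset.sum_comm]
      refine Finset.sum_congr rfl fun e _ => ?_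
      simp
    have a2 : ∑ e, f (Γ.vtx (Γ.tgt e)) * df e (Γ.len e) =
        ∑ v, f (Γ.vtx v) * ∑ e, if Γ.tgt e = v then df e (Γ.len e) else 0 := by
      simp_rw [Finset.mul_sum]
      rw [Finset.sum_comm]
      refine Finset.sum_congr rfl fun e _ => ?_
      simp
    rw [Finset.sum_sub_distrib, a1, a2, ← Finset.sum_sub_distrib, ← Finset.sum_neg_distrib]
    refine Finset.sum_congr rfl fun v _ => ?_
    have := h3 v
    rw [← mul_sub]
    have h4 : (∑ e, if Γ.tgt e = v then df e (Γ.len e) else 0) -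
      (∑ e, if Γ.src e = v then df e 0 else 0) = -(α v * f (Γ.vtx v)) := by linarith
    rw [h4]
    ring
  have hnn : ∀ v ∈ Finset.univ, 0 ≤ α v * f (Γ.vtx v) ^ 2 := fun v _ =>
    mul_nonneg (hα v) (sq_nonneg _)
  have hz1 : ∑ v, α v * f (Γ.vtx v) ^ 2 = 0 := by
    apply le_antisymm _ (Finset.sum_nonneg hnn)
    have := Finset.sum_nonneg (fun e (_ : e ∈ Finset.univ) => hend e)
    linarith
  have hz2 : ∀ v, α v * f (Γ.vtx v) ^ 2 = 0 := fun v =>
    (Finset.sum_eq_zero_iff_of_nonneg hnn).1 hz1 v (Finset.mem_univ v)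
  have hz3 : ∀ e, f (Γ.vtx (Γ.tgt e)) * df e (Γ.len e) - f (Γ.vtx (Γ.src e)) * df e 0 = 0 := by
    intro e
    have : ∑ e, (f (Γ.vtx (Γ.tgt e)) * df e (Γ.len e) - f (Γ.vtx (Γ.src e)) * df e 0) = 0 := by
      rw [hsum, hz1, neg_zero]
    exact (Finset.sum_eq_zero_iff_of_nonneg (fun e _ => hend e)).1 this e (Finset.mem_univ e)
  -- hence the product is constant on every edge, so its derivative vanishes
  have hder0 : ∀ e, ∀ x ∈ Ioo 0 (Γ.len e), df e x ^ 2 - μ * f (Γ.pt e x) ^ 2 = 0 := by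
    intro e x hx
    have hL := (Γ.len_pos e).le
    have hconst : ∀ y ∈ Icc 0 (Γ.len e), f (Γ.pt e y) * df e y =
        f (Γ.vtx (Γ.src e)) * df e 0 := by
      intro y hy
      have b1 := hmono e ⟨le_rfl, hL⟩ hy hy.1
      have b2 := hmono e hy ⟨hL, le_rfl⟩ hy.2
      simp only [pt_zero, pt_len] at b1 b2
      have := hz3 e
      linarith
    have c1 := (hder e x ⟨hx.1.le, hx.2.le⟩).hasDerivAt (Icc_mem_nhds hx.1 hx.2)
    have c2 : HasDerivAt (fun y => f (Γ.pt e y) * df e y) 0 x := by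
      apply (hasDerivAt_const x (f (Γ.vtx (Γ.src e)) * df e 0)).congr_of_eventuallyEq
      filter_upwards [Icc_mem_nhds hx.1 hx.2] with y hy
      exact hconst y hy
    exact c1.unique c2
  have hdf0 : ∀ e, ∀ x ∈ Ioo 0 (Γ.len e), df e x = 0 := by
    intro e x hx
    have := hder0 e x hx
    have : df e x ^ 2 ≤ 0 := by nlinarith [sq_nonneg (f (Γ.pt e x))]
    exact pow_eq_zero_iff (two_ne_zero) |>.1 (le_antisymm this (sq_nonneg _))
  -- `f` is constant on every edge
  have hfc : ∀ e, ∀ x ∈ Icc 0 (Γ.len e), f (Γ.pt e x) = f (Γ.vtx (Γ.src e)) := by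
    intro e x hx
    have hcont : ContinuousOn (fun y => f (Γ.pt e y)) (Icc 0 (Γ.len e)) := fun y hy =>
      (h1 e y hy).continuousWithinAt
    have hL := Γ.len_pos e
    have hdiff : DifferentiableOn ℝ (fun y => f (Γ.pt e y)) (interior (Icc 0 (Γ.len e))) := by
      intro y hy
      rw [interior_Icc] at hy
      exact ((h1 e y ⟨hy.1.le, hy.2.le⟩).hasDerivAt
        (Icc_mem_nhds hy.1 hy.2)).differentiableAt.differentiableWithinAt
    have hd0 : ∀ y ∈ interior (Icc 0 (Γ.len e)), deriv (fun y => f (Γ.pt e y)) y = 0 := by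
      intro y hy
      rw [interior_Icc] at hy
      rw [((h1 e y ⟨hy.1.le, hy.2.le⟩).hasDerivAt (Icc_mem_nhds hy.1 hy.2)).deriv]
      exact hdf0 e y hy
    have m1 : MonotoneOn (fun y => f (Γ.pt e y)) (Icc 0 (Γ.len e)) :=
      monotoneOn_of_deriv_nonneg (convex_Icc _ _) hcont hdiff (fun y hy => (hd0 y hy).ge)
    have m2 : AntitoneOn (fun y => f (Γ.pt e y)) (Icc 0 (Γ.len e)) :=
      antitoneOn_of_deriv_nonpos (convex_Icc _ _) hcont hdiff (fun y hy => (hd0 y hy).le)
    have n1 := m1 ⟨le_rfl, hL.le⟩ hx hx.1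
    have n2 := m2 ⟨le_rfl, hL.le⟩ hx hx.1
    simp only [pt_zero] at n1 n2
    exact le_antisymm n2 n1
  -- `f` is constant
  have hstep : ∀ e, f (Γ.vtx (Γ.tgt e)) = f (Γ.vtx (Γ.src e)) := by
    intro e
    have := hfc e (Γ.len e) ⟨(Γ.len_pos e).le, le_rfl⟩
    rwa [pt_len] at this
  have hvc : ∀ v w, f (Γ.vtx v) = f (Γ.vtx w) := by
    intro v w
    induction Γ.conn v w with
    | refl => rfl
    | tail _ hab ih =>
      obtain ⟨e, ⟨rfl, rfl⟩ | ⟨rfl, rfl⟩⟩ := hab
      · rw [ih, hstep]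
      · rw [ih, hstep]
  obtain ⟨e0⟩ := Γ.nonempty
  obtain ⟨v0, -⟩ : ∃ v0, v0 = Γ.src e0 := ⟨_, rfl⟩
  have hall : ∀ q, f q = f (Γ.vtx v0) := by
    intro q
    rcases pt_cases q with ⟨v, rfl⟩ | ⟨e, x, hx0, hx1, rfl⟩
    · exact hvc _ _
    · rw [hfc e x ⟨hx0.le, hx1.le⟩]; exact hvc _ _
  have hne : f (Γ.vtx v0) ≠ 0 := by
    rw [← hall p]; exact hp
  have hαz : ∀ v, α v = 0 := by
    intro v
    have := hz2 v
    rw [hall (Γ.vtx v)] at this
    rcases mul_eq_zero.1 this with h | h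
    · exact h
    · exact absurd (pow_eq_zero_iff two_ne_zero |>.1 h) hne
  refine ⟨?_, hαz⟩
  by_contra hμ0
  have hL := Γ.len_pos e0
  have := hder0 e0 (Γ.len e0 / 2) ⟨by linarith, by linarith⟩
  rw [hdf0 e0 (Γ.len e0 / 2) ⟨by linarith, by linarith⟩, hall] at this
  have h5 : μ * f (Γ.vtx v0) ^ 2 = 0 := by linarith
  rcases mul_eq_zero.1 h5 with h | h
  · exact hμ0 h
  · exact absurd (pow_eq_zero_iff two_ne_zero |>.1 h) hne

/-- The constant function `1` is an eigenfunction for the eigenvalue `0` of the standard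
Laplacian. -/
theorem eigen_one : Γ.IsEigen (fun _ => 0) 0 (fun _ => 1) := by
  obtain ⟨e⟩ := Γ.nonempty
  refine ⟨⟨Γ.vtx (Γ.src e), one_ne_zero⟩, fun _ _ => 0, ?_, ?_, ?_⟩
  · intro e x _
    exact hasDerivWithinAt_const _ _ _
  · intro e x _
    simpa using hasDerivWithinAt_const x (Icc 0 (Γ.len e)) (0 : ℝ)
  · intro v
    simp

/-- A criterion for the second eigenvalue of the standard Laplacian. -/
theorem second_of_std {κ : ℝ} (hκ : 0 < κ)
    (hex : ∃ f, Γ.IsEigen (fun _ => 0) (κ ^ 2) f)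
    (hno : ∀ k, 0 < k → k < κ → ∀ f, ¬ Γ.IsEigen (fun _ => 0) (k ^ 2) f) :
    Γ.IsSecond (fun _ => 0) (κ ^ 2) := by
  refine ⟨0, ⟨⟨_, eigen_one⟩, ?_⟩, ⟨by positivity, hex⟩, ?_⟩
  · rintro t ⟨f, hf⟩
    by_contra ht
    push Not at ht
    have := (eigen_nonneg (fun _ => le_rfl) hf ht.le).1
    linarith
  · rintro t ⟨ht, f, hf⟩
    by_contra hlt
    push Not at hlt
    apply hno (Real.sqrt t) (Real.sqrt_pos.2 ht) _ f
    · rwa [Real.sq_sqrt ht.le]
    · rw [show κ = Real.sqrt (κ ^ 2) from (Real.sqrt_sq hκ.le).symm]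
      exact Real.sqrt_lt_sqrt ht.le hlt

/-- The second eigenvalue is unique. -/
theorem IsSecond_unique {α : Γ.V → ℝ} {μ μ' : ℝ} (h : Γ.IsSecond α μ) (h' : Γ.IsSecond α μ') :
    μ = μ' := by
  obtain ⟨ν, h1, h2⟩ := h
  obtain ⟨ν', h1', h2'⟩ := h'
  have : ν = ν' := h1.unique h1'
  subst this
  exact h2.unique h2'

end Pool.Agent.X151.QG
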