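import Pool.Agent.X151.QG.Base

/-!
The wheel graph with four spokes and four rim edges, all of length one.
-/

namespace Pool.Agent.X151.QG

open Set

/-- The end `0` of the edges of the wheel. -/
def wsrc : Fin 4 ⊕ Fin 4 → Option (Fin 4)
  | Sum.inl j => some j
  | Sum.inr j => some j

/-- The end `len` of the edges of the wheel. -/
def wtgt : Fin 4 ⊕ Fin 4 → Option (Fin 4)
  | Sum.inl _ => none
  | Sum.inr j => some (j + 1)

/-- The wheel graph `W_4`: the hub is `none`, the rim vertices are `some j` with `j` modulo `4`,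
the spokes are `Sum.inl j` (from `some j` to the hub), the rim edges are `Sum.inr j` (from
`some j` to `some (j + 1)`); all edges have length `1`. -/
noncomputable abbrev wheel : MetricGraph where
  V := Option (Fin 4)
  E := Fin 4 ⊕ Fin 4
  src := wsrc
  tgt := wtgt
  len := fun _ => 1
  len_pos := fun _ => one_pos
  nonempty := ⟨Sum.inl 0⟩
  conn := by
    have h1 : ∀ v : Option (Fin 4), Relation.ReflTransGen (fun a b => ∃ e : Fin 4 ⊕ Fin 4,
      (wsrc e = a ∧ wtgt e = b) ∨ (wsrc e = b ∧ wtgt e = a)) v none := by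
      intro v
      rcases v with _ | j
      · exact Relation.ReflTransGen.refl
      · exact Relation.ReflTransGen.single ⟨Sum.inl j, Or.inl ⟨rfl, rfl⟩⟩
    have h2 : ∀ v : Option (Fin 4), Relation.ReflTransGen (fun a b => ∃ e : Fin 4 ⊕ Fin 4,
      (wsrc e = a ∧ wtgt e = b) ∨ (wsrc e = b ∧ wtgt e = a)) none v := by
      intro v
      rcases v with _ | j
      · exact Relation.ReflTransGen.refl
      · exact Relation.ReflTransGen.single ⟨Sum.inl j, Or.inr ⟨rfl, rfl⟩⟩
    intro v w
    exact (h1 v).trans (h2 w)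

theorem disc_wheel_hub (α : Option (Fin 4) → ℝ) {k : ℝ} (hs : Real.sin k ≠ 0)
    (u : Option (Fin 4) → ℝ) : Disc wheel α k u none ↔
      u (some 0) + u (some 1) + u (some 2) + u (some 3) -
            4 * Real.cos k * u none = α none * u none / k * Real.sin k := by
  have : Disc wheel α k u none ↔
    (∑ e : Fin 4 ⊕ Fin 4, if wsrc e = none then (u (wtgt e) - Real.cos (k * 1) * u none) /
      Real.sin (k * 1) else 0) +
    (∑ e : Fin 4 ⊕ Fin 4, if wtgt e = none then (u (wsrc e) - Real.cos (k * 1) * u none) /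
      Real.sin (k * 1) else 0) = α none * u none / k :=
    letI : DecidableEq wheel.V := inferInstanceAs (DecidableEq (Option (Fin 4)))
    disc_iff (Γ := wheel) α k u none
  rw [this]
  simp only [Fintype.sum_sum_type, Fin.sum_univ_four, wsrc, wtgt, mul_one, reduceCtorEq,
    if_false, if_true, add_zero, zero_add]
  rw [← add_div, ← add_div, ← add_div, div_eq_iff hs]
  constructor <;> intro h <;> linarith

theorem disc_wheel_rim (α : Option (Fin 4) → ℝ) {k : ℝ} (hs : Real.sin k ≠ 0)
    (u : Option (Fin 4) → ℝ) (j : Fin 4) : Disc wheel α k u (some j) ↔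
      u none + u (some (j + 1)) + u (some (j + 3)) - 3 * Real.cos k * u (some j) =
            α (some j) * u (some j) / k * Real.sin k := by
  have : Disc wheel α k u (some j) ↔
    (∑ e : Fin 4 ⊕ Fin 4, if wsrc e = some j then (u (wtgt e) - Real.cos (k * 1) * u (some j)) /
      Real.sin (k * 1) else 0) +
    (∑ e : Fin 4 ⊕ Fin 4, if wtgt e = some j then (u (wsrc e) - Real.cos (k * 1) * u (some j)) /
      Real.sin (k * 1) else 0) = α (some j) * u (some j) / k :=
    letI : DecidableEq wheel.V := inferInstanceAs (DecidableEq (Option (Fin 4)))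
    disc_iff (Γ := wheel) α k u (some j)
  rw [this]
  have e1 : (∑ e : Fin 4 ⊕ Fin 4, if wsrc e = some j then
      (u (wtgt e) - Real.cos (k * 1) * u (some j)) / Real.sin (k * 1) else 0) =
      (u none - Real.cos k * u (some j)) / Real.sin k +
      (u (some (j + 1)) - Real.cos k * u (some j)) / Real.sin k := by
    simp only [Fintype.sum_sum_type, wsrc, wtgt, mul_one, Option.some.injEq,
      Finset.sum_ite_eq', Finset.mem_univ, if_true]
  have e2 : (∑ e : Fin 4 ⊕ Fin 4, if wtgt e = some j then
      (u (wsrc e) - Real.cos (k * 1) * u (some j)) / Real.sin (k * 1) else 0) =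
      (u (some (j + 3)) - Real.cos k * u (some j)) / Real.sin k := by
    have hj' : ∀ i j : Fin 4, i + 1 = j ↔ i = j + 3 := by decide
    have hj : ∀ i : Fin 4, i + 1 = j ↔ i = j + 3 := fun i => hj' i j
    simp only [Fintype.sum_sum_type, wsrc, wtgt, mul_one, Option.some.injEq, hj,
      Finset.sum_ite_eq', Finset.mem_univ, if_true, reduceCtorEq, if_false,
      Finset.sum_const_zero, zero_add]
  rw [e1, e2, ← add_div, ← add_div, div_eq_iff hs]
  constructor <;> intro h <;> linarith

/-- The strengths: `a` at the hub and `0` at the other vertices. -/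
def hubStr (a : ℝ) : Option (Fin 4) → ℝ
  | none => a
  | some _ => 0

theorem wheel_sin {k : ℝ} (h0 : 0 < k) (h1 : k ≤ Real.pi / 2) (e : wheel.E) :
    Real.sin (k * wheel.len e) ≠ 0 := by
  have : wheel.len e = 1 := rfl
  rw [this, mul_one]
  exact (Real.sin_pos_of_pos_of_lt_pi h0 (by linarith [Real.pi_pos])).ne'

/-- The equations for the vertex values of an eigenfunction of the wheel. -/
theorem wheel_eqs {a k : ℝ} (h0 : 0 < k) (h1 : k ≤ Real.pi / 2) {f : wheel.Pt → ℝ}
    (hf : wheel.IsEigen (hubStr a) (k ^ 2) f) :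
    ∃ u : Option (Fin 4) → ℝ, (∀ v, f (wheel.vtx v) = u v) ∧ (∃ v, u v ≠ 0) ∧
      f = lift wheel k u ∧
      u (some 0) + u (some 1) + u (some 2) + u (some 3) - 4 * Real.cos k * u none =
        a * u none / k * Real.sin k ∧
      u none + u (some 1) + u (some 3) - 3 * Real.cos k * u (some 0) = 0 ∧
      u none + u (some 2) + u (some 0) - 3 * Real.cos k * u (some 1) = 0 ∧
      u none + u (some 3) + u (some 1) - 3 * Real.cos k * u (some 2) = 0 ∧
      u none + u (some 0) + u (some 2) - 3 * Real.cos k * u (some 3) = 0 := by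
  have hs : Real.sin k ≠ 0 := by
    have := wheel_sin h0 h1 (Sum.inl 0)
    have h : wheel.len (Sum.inl 0) = 1 := rfl
    rwa [h, mul_one] at this
  obtain ⟨g1, g2, g3⟩ := disc_of_eigen h0.ne' (wheel_sin h0 h1) hf
  refine ⟨fun v => f (wheel.vtx v), fun v => rfl, g2, g1, ?_, ?_, ?_, ?_, ?_⟩
  · exact (disc_wheel_hub _ hs _).1 (g3 none)
  · have := (disc_wheel_rim _ hs _ 0).1 (g3 (some 0))
    simpa [hubStr] using this
  · have := (disc_wheel_rim _ hs _ 1).1 (g3 (some 1))
    simpa [hubStr] using this
  · have := (disc_wheel_rim _ hs _ 2).1 (g3 (some 2))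
    simpa [hubStr] using this
  · have := (disc_wheel_rim _ hs _ 3).1 (g3 (some 3))
    simpa [hubStr] using this

/-- An eigenfunction below `(π/2)²` gives a solution of a scalar equation. -/
theorem wheel_low {a k : ℝ} (h0 : 0 < k) (h1 : k < Real.pi / 2) {f : wheel.Pt → ℝ}
    (hf : wheel.IsEigen (hubStr a) (k ^ 2) f) :
    (3 * Real.cos k - 2) * (4 * Real.cos k + a / k * Real.sin k) = 4 := by
  obtain ⟨u, -, ⟨v, hv⟩, -, e0, e1, e2, e3, e4⟩ := wheel_eqs h0 h1.le hf
  have hc : 0 < Real.cos k := Real.cos_pos_of_mem_Ioo ⟨by linarith [Real.pi_pos], h1⟩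
  have hs : 0 < Real.sin k := Real.sin_pos_of_pos_of_lt_pi h0 (by linarith [Real.pi_pos])
  have hc1 : Real.cos k < 1 := by
    nlinarith [Real.sin_sq_add_cos_sq k]
  have e0' : u (some 0) + u (some 1) + u (some 2) + u (some 3) =
      (4 * Real.cos k + a / k * Real.sin k) * u none := by
    have : a * u none / k * Real.sin k = a / k * Real.sin k * u none := by ring
    rw [this] at e0
    linarith
  set c := Real.cos k
  set S := u (some 0) + u (some 1) + u (some 2) + u (some 3) with hS
  have hsum : 4 * u none = (3 * c - 2) * S := by rw [hS]; linarith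
  by_cases hh : u none = 0
  · -- then everything vanishes
    exfalso
    rw [hh] at e0' e1 e2 e3 e4
    have h02 : u (some 0) = u (some 2) := by
      have : 3 * c * (u (some 0) - u (some 2)) = 0 := by linarith
      rcases mul_eq_zero.1 this with h | h
      · linarith
      · linarith
    have h13 : u (some 1) = u (some 3) := by
      have : 3 * c * (u (some 1) - u (some 3)) = 0 := by linarith
      rcases mul_eq_zero.1 this with h | h
      · linarith
      · linarith
    have h01 : u (some 0) + u (some 1) = 0 := by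
      rw [hS] at e0'
      linarith
    have h00 : (2 + 3 * c) * u (some 0) = 0 := by
      rw [← h13] at e1
      linear_combination 2 * h01 - e1
    have h0z : u (some 0) = 0 := by
      rcases mul_eq_zero.1 h00 with h | h
      · linarith
      · exact h
    apply hv
    rcases v with _ | j
    · exact hh
    · fin_cases j
      · exact h0z
      · show u (some 1) = 0
        linarith
      · show u (some 2) = 0
        linarith
      · show u (some 3) = 0
        linarith
  · have : u none * ((3 * c - 2) * (4 * c + a / k * Real.sin k)) = u none * 4 := by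
      rw [e0'] at hsum
      linarith
    exact mul_left_cancel₀ hh this

/-- At `k = π/2`. -/
theorem wheel_top {a : ℝ} (ha : 0 ≤ a) {f : wheel.Pt → ℝ}
    (hf : wheel.IsEigen (hubStr a) ((Real.pi / 2) ^ 2) f) :
    ∃ u : Option (Fin 4) → ℝ, (∀ v, f (wheel.vtx v) = u v) ∧ (∃ v, u v ≠ 0) ∧
      u none = 0 ∧ u (some 2) = -u (some 0) ∧ u (some 3) = -u (some 1) := by
  have hp := Real.pi_pos
  obtain ⟨u, hu, hv, -, e0, e1, e2, e3, e4⟩ := wheel_eqs (by positivity) le_rfl hf
  rw [Real.cos_pi_div_two] at e0 e1 e2 e3 e4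
  rw [Real.sin_pi_div_two] at e0
  refine ⟨u, hu, hv, ?_⟩
  have h1 : (4 + 2 * (a / (Real.pi / 2))) * u none = 0 := by
    have : a * u none / (Real.pi / 2) * 1 = a / (Real.pi / 2) * u none := by ring
    rw [this] at e0
    linear_combination (-2) * e0 + e1 + e2 + e3 + e4
  have h2 : 0 ≤ a / (Real.pi / 2) := by positivity
  have h3 : u none = 0 := by
    rcases mul_eq_zero.1 h1 with h | h
    · linarith
    · exact h
  refine ⟨h3, by linarith, by linarith⟩

/-- The rotating family of vertex values. -/
noncomputable def rot (θ : ℝ) : Option (Fin 4) → ℝ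
  | none => 0
  | some j => ![Real.cos θ, Real.sin θ, -Real.cos θ, -Real.sin θ] j

theorem rot_eigen (a θ : ℝ) :
    wheel.IsEigen (hubStr a) ((Real.pi / 2) ^ 2) (lift wheel (Real.pi / 2) (rot θ)) := by
  have hp := Real.pi_pos
  apply eigen_of_disc _ (by positivity) (wheel_sin (by positivity) le_rfl)
  · by_cases h : Real.cos θ = 0
    · refine ⟨some 1, ?_⟩
      intro h'
      have h'' : Real.sin θ = 0 := h'
      have := Real.sin_sq_add_cos_sq θ
      rw [h, h''] at this
      norm_num at this
    · exact ⟨some 0, h⟩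
  · have hs : Real.sin (Real.pi / 2) ≠ 0 := by rw [Real.sin_pi_div_two]; exact one_ne_zero
    intro v
    rcases v with _ | j
    · apply (disc_wheel_hub _ hs _).2
      simp [rot, Real.cos_pi_div_two]
    · apply (disc_wheel_rim _ hs _ j).2
      rw [Real.cos_pi_div_two]
      fin_cases j <;> simp [rot, hubStr]

theorem rot_le (θ : ℝ) (q : wheel.Pt) : lift wheel (Real.pi / 2) (rot θ) q ≤ 1 := by
  have hp := Real.pi_pos
  have hcs := Real.sin_sq_add_cos_sq θ
  rcases pt_cases q with ⟨v, rfl⟩ | ⟨e, x, hx0, hx1, rfl⟩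
  · rw [lift_vtx]
    rcases v with _ | j
    · exact zero_le_one
    · have a1 := Real.cos_le_one θ
      have a2 := Real.sin_le_one θ
      have a3 := Real.neg_one_le_cos θ
      have a4 := Real.neg_one_le_sin θ
      fin_cases j <;> simp [rot] <;> linarith
  · rw [lift_pt _ _ e (wheel_sin (by positivity) le_rfl e) ⟨hx0.le, hx1.le⟩]
    have hl : wheel.len e = 1 := rfl
    rw [hl, mul_one, Real.sin_pi_div_two, div_one, mul_sub, mul_one, Real.sin_pi_div_two_sub]
    have hcs' := Real.sin_sq_add_cos_sq (Real.pi / 2 * x)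
    have hab : rot θ (wheel.src e) ^ 2 + rot θ (wheel.tgt e) ^ 2 ≤ 1 := by
      rcases e with j | j
      · show rot θ (some j) ^ 2 + rot θ none ^ 2 ≤ 1
        fin_cases j <;> simp [rot] <;>
          first
            | exact Real.abs_cos_le_one θ
            | exact Real.abs_sin_le_one θ
      · show rot θ (some j) ^ 2 + rot θ (some (j + 1)) ^ 2 ≤ 1
        fin_cases j <;> simp [rot]
    set A := rot θ (wheel.src e)
    set B := rot θ (wheel.tgt e)
    set C := Real.cos (Real.pi / 2 * x)
    set S := Real.sin (Real.pi / 2 * x)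
    nlinarith [sq_nonneg (A - C), sq_nonneg (B - S)]

theorem rot_at {x : ℝ} (h0 : 0 < x) (h1 : x < 1) :
    lift wheel (Real.pi / 2) (rot (Real.pi / 2 * x)) (wheel.pt (Sum.inr 0) x) = 1 := by
  have hp := Real.pi_pos
  have hl : wheel.len (Sum.inr 0) = 1 := rfl
  rw [lift_pt _ _ (Sum.inr 0) (wheel_sin (by positivity) le_rfl _)
    ⟨h0.le, by rw [hl]; exact h1.le⟩]
  rw [hl, mul_one, Real.sin_pi_div_two, div_one, mul_sub, mul_one, Real.sin_pi_div_two_sub]
  have e1 : rot (Real.pi / 2 * x) (wheel.src (Sum.inr 0)) = Real.cos (Real.pi / 2 * x) := rfl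
  have e2 : rot (Real.pi / 2 * x) (wheel.tgt (Sum.inr 0)) = Real.sin (Real.pi / 2 * x) := rfl
  rw [e1, e2]
  have := Real.sin_sq_add_cos_sq (Real.pi / 2 * x)
  nlinarith

/-- Once `(π/2)²` is the second eigenvalue, the set `M` is infinite and does not contain the
hub. -/
theorem wheel_M {a : ℝ} (ha : 0 ≤ a) (h2 : wheel.IsSecond (hubStr a) ((Real.pi / 2) ^ 2)) :
    (wheel.M (hubStr a)).Infinite ∧ wheel.M (hubStr a) ≠ Set.univ := by
  constructor
  · have hinj : Set.InjOn (fun x : ℝ => wheel.pt (Sum.inr 0) x) (Ioo 0 1) := by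
      intro x hx y hy hxy
      have hl : wheel.len (Sum.inr 0) = 1 := rfl
      simp only [] at hxy
      rw [pt_mem (Γ := wheel) (Sum.inr 0) hx.1 (by rw [hl]; exact hx.2),
        pt_mem (Γ := wheel) (Sum.inr 0) hy.1 (by rw [hl]; exact hy.2)] at hxy
      exact congrArg (fun p : wheel.Pt => match p with
        | Sum.inl _ => (0 : ℝ)
        | Sum.inr ⟨_, y⟩ => y.1) hxy
    apply Set.infinite_of_injOn_mapsTo hinj _ (Set.Ioo_infinite (by norm_num))
    intro x hx
    refine ⟨_, _, h2, rot_eigen a (Real.pi / 2 * x), Or.inl fun q => ?_⟩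
    rw [rot_at hx.1 hx.2]
    exact rot_le _ q
  · intro huniv
    have hm : wheel.vtx none ∈ wheel.M (hubStr a) := by rw [huniv]; trivial
    obtain ⟨μ, f, hμ, hf, hmax⟩ := hm
    rw [IsSecond_unique hμ h2] at hf
    obtain ⟨u, hu, ⟨v, hv⟩, h0, h1, h2⟩ := wheel_top ha hf
    apply hv
    have hall : u (some 0) = 0 ∧ u (some 1) = 0 := by
      rcases hmax with hm | hm
      · have b0 := hm (wheel.vtx (some 0))
        have b1 := hm (wheel.vtx (some 1))
        have b2 := hm (wheel.vtx (some 2))
        have b3 := hm (wheel.vtx (some 3))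
        simp only [hu] at b0 b1 b2 b3
        constructor <;> linarith
      · have b0 := hm (wheel.vtx (some 0))
        have b1 := hm (wheel.vtx (some 1))
        have b2 := hm (wheel.vtx (some 2))
        have b3 := hm (wheel.vtx (some 3))
        simp only [hu] at b0 b1 b2 b3
        constructor <;> linarith
    rcases v with _ | j
    · exact h0
    · fin_cases j
      · exact hall.1
      · exact hall.2
      · show u (some 2) = 0
        rw [h1, hall.1, neg_zero]
      · show u (some 3) = 0
        rw [h2, hall.2, neg_zero]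

/-- The standard Laplacian: second eigenvalue. -/
theorem wheel_std : wheel.IsSecond (hubStr 0) ((Real.pi / 2) ^ 2) := by
  have hp := Real.pi_pos
  have h00 : hubStr 0 = fun _ => 0 := by
    funext v; rcases v with _ | j <;> rfl
  have : wheel.IsSecond (fun _ => 0) ((Real.pi / 2) ^ 2) := by
    apply second_of_std (by positivity)
    · refine ⟨lift wheel (Real.pi / 2) (rot 0), ?_⟩
      rw [← h00]
      exact rot_eigen 0 0
    · intro k hk0 hk1 f hf
      have hf' : wheel.IsEigen (hubStr 0) (k ^ 2) f := by rw [h00]; exact hf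
      have := wheel_low hk0 hk1 hf'
      have hc : 0 < Real.cos k := Real.cos_pos_of_mem_Ioo ⟨by linarith, hk1⟩
      have hs : 0 < Real.sin k := Real.sin_pos_of_pos_of_lt_pi hk0 (by linarith)
      have hc1 : Real.cos k < 1 := by nlinarith [Real.sin_sq_add_cos_sq k]
      rw [zero_div, zero_mul, add_zero] at this
      nlinarith
  rw [h00]
  exact this

end Pool.Agent.X151.QG
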